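import Pool.Agent.Q193.SB.Main

set_option autoImplicit false

/-!
# Bounded versus unbounded approximate semi-amenability

There is a (commutative) Banach algebra that is approximately semi-amenable but not boundedly
approximately semi-amenable: the `ℓ¹`-sum of the weighted semilattice algebras `ℓ¹(S, ω_n)`,
`S = {o, b_1, b_2, …}`, `b_j b_j = b_j`, all other products `o`, `ω_n(o) = n²`, `ω_n(b_j) = n`.
-/

namespace Pool.Agent.Results.MP_98688b_an.UnboundedSemiAmenable

open Pool.Agent.Q193.SA Pool.Agent.Q193.SB

/-- There is a commutative complex Banach algebra `A` that is approximately semi-amenable but not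
boundedly approximately semi-amenable. -/
theorem result : ∃ (A : Type) (_ : NonUnitalNormedCommRing A) (_ : NormedSpace ℂ A)
    (_ : IsScalarTower ℂ A A) (_ : SMulCommClass ℂ A A),
    CompleteSpace A ∧ ApproxSemiAmenable A ∧ ¬ BddApproxSemiAmenable A :=
  ⟨SAlg, inferInstance, inferInstance, inferInstance, inferInstance, inferInstance, semi_SAlg,
    not_bdd_SAlg⟩

end Pool.Agent.Results.MP_98688b_an.UnboundedSemiAmenable
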